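import Pool.Agent.H95.NV.Targets3

/-!
# MP_347b49_nt, board nva, row CLX: complete lists of the fields exist
-/

set_option autoImplicit false

open MeasureTheory Set Filter NumberField
open scoped Real nonZeroDivisors

namespace Pool.Agent.H6.NV

open Pool.Agent.H95.NV
open Pool.Agent.H65.CM4 (Pl rv nm dk dg V2 Fo)
open Pool.Agent.H61.NVK (ci cr Lb nf Vk zf)
open Pool.Agent.H89.NV (PrI np nS idS ni q4 Dis Fnd good bD Rs CK em tp sd TrK prp PM qN dR kf GW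
  Z1 S2)

section

variable {k : Type} [Field k] [NumberField k]

theorem ci_ne (c : ClassGroup (𝓞 k)) : ci c ≠ ⊥ := by
  have h := (cr c).2
  rw [mem_nonZeroDivisors_iff_ne_zero] at h
  exact h

theorem nm_ci_pos (c : ClassGroup (𝓞 k)) : 0 < nm (ci c) := by
  have h : Ideal.absNorm (ci c) ≠ 0 := by
    rw [Ne, Ideal.absNorm_eq_zero_iff]
    exact ci_ne c
  unfold nm
  exact_mod_cast Nat.pos_of_ne_zero h

end

theorem pf_CLX (hEXK : T_EXK) (hTCX : T_TCX) (hFUN : T_FUN) (hKDT : T_KDT) (hKDF : T_KDF)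
    (hFSP : T_FSP) (hREP : T_REP) (hKDX : T_KDX) (_hKDU : T_KDU) (hKDM : T_KDM) (hBRA : T_BRA)
    (_hBRK : T_BRK) (hDSC : T_DSC) (_hISO : T_ISO) : T_CLX := by
  intro k _ _ _ Ψ hPU X
  classical
  obtain ⟨hF1, hF2⟩ := hFSP k Ψ hPU
  have hFf := hF2 X
  obtain ⟨_, _, _, _, hB5⟩ := hBRA k
  set F : Set (ClassGroup (𝓞 k) × 𝓞 k) := {x | mul k Ψ x ≠ 0 ∧ dsz k (ci x.1) x.2 ≤ X} with hFdef
  have key : ∀ x : F, ∃ (K : Type) (_ : Field K) (_ : NumberField K) (_ : Algebra k K)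
      (_ : Algebra.IsQuadraticExtension k K) (b : 𝓞 k) (δ : K), KD (ci x.1.1) x.1.2 b δ := by
    rintro ⟨⟨c, D⟩, hx⟩
    have hm : mul k Ψ (c, D) ≠ 0 := hx.1
    have h2 : tp D ∧ Fnd (ci c) D := by
      by_contra h
      apply hm
      unfold mul
      exact if_neg h
    obtain ⟨K, i1, i2, i3, i4, δ, hδ⟩ := hEXK k D h2.1
    obtain ⟨b, hb⟩ := hFUN k K (ci c) D δ h2.1 hδ ((hB5 _ _ (ci_ne c)).1 h2.2)
    exact ⟨K, i1, i2, i3, i4, b, δ, hb⟩
  choose K iF iN iA iQ b δ hKD using key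
  have hdsc : ∀ x : F, |(discr (K x) : ℝ)| = dsz k (ci x.1.1) x.1.2 := by
    intro x
    have h := hDSC k (K x) (ci x.1.1) x.1.2 (b x) (δ x) (hKD x)
    have hn := nm_ci_pos x.1.1
    unfold dsz
    rw [eq_div_iff (by positivity)]
    exact h
  have : Fintype F := hFf.fintype
  let S : Setoid F :=
    { r := fun x y => Nonempty (K x ≃ₐ[k] K y)
      iseqv := ⟨fun x => ⟨AlgEquiv.refl⟩, fun ⟨e⟩ => ⟨e.symm⟩, fun ⟨e⟩ ⟨e'⟩ => ⟨e.trans e'⟩⟩ }
  let e : Quotient S ≃ Fin (Fintype.card (Quotient S)) := Fintype.equivFin _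
  let rep : Fin (Fintype.card (Quotient S)) → F := fun i => (e.symm i).out
  refine ⟨Fintype.card (Quotient S), fun i => K (rep i), fun i => iF (rep i),
    fun i => iN (rep i), fun i => iA (rep i), ?_⟩
  refine ⟨fun i => iQ (rep i), ?_, ?_, ?_, ?_⟩
  · intro i
    exact hTCX k (K (rep i)) (rep i).1.2 (δ (rep i)) (hKD (rep i)).pos (hKD (rep i)).sq
  · intro i
    rw [hdsc]
    exact (rep i).2.2
  · intro i j hij
    have h1 : (Quotient.mk S (rep i)) = Quotient.mk S (rep j) := Quotient.sound hij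
    have h2 : e.symm i = e.symm j := by
      rw [← Quotient.out_eq (e.symm i), ← Quotient.out_eq (e.symm j)]
      exact h1
    exact e.symm.injective h2
  · intro L _ _ _ _ _ hL
    obtain ⟨⟨R, hR, hR2⟩, _, _⟩ := hREP k
    obtain ⟨f, hf, D, b₁, δ₁, hKD₁⟩ := hKDX k L R hR
    obtain ⟨c, rfl⟩ := (hR2 f).1 hf
    obtain ⟨s, hs, hs1⟩ := hPU.sum (em D) (fun v => hKD₁.pos v)
    obtain ⟨x, hx⟩ : s.Nonempty := by
      rw [Finset.nonempty_iff_ne_empty]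
      rintro rfl
      simp at hs1
    obtain ⟨⟨ε, rfl⟩, hΨ⟩ := (hs x).1 hx
    obtain ⟨hKD₂, _⟩ := hKDM k L (ci c) D b₁ δ₁ ε hKD₁
    have hem : (fun v => Pool.Agent.H89.NV.em ((ε : 𝓞 k) ^ 2) v * Pool.Agent.H89.NV.em D v) = Pool.Agent.H89.NV.em ((ε : 𝓞 k) ^ 2 * D) := by
      funext v
      unfold Pool.Agent.H89.NV.em
      rw [← map_mul]
      rfl
    have htp : tp ((ε : 𝓞 k) ^ 2 * D) := hKD₂.pos
    have hfn : Fnd (ci c) ((ε : 𝓞 k) ^ 2 * D) := (hB5 _ _ (ci_ne c)).2 (hKDF k L _ _ _ _ hKD₂)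
    have hmul : mul k Ψ (c, (ε : 𝓞 k) ^ 2 * D) ≠ 0 := by
      unfold mul
      rw [if_pos ⟨htp, hfn⟩, ← hem]
      exact hΨ
    have hds : dsz k (ci c) ((ε : 𝓞 k) ^ 2 * D) ≤ X := by
      have h := hDSC k L (ci c) _ _ _ hKD₂
      have hn := nm_ci_pos c
      have h' : |(discr L : ℝ)| = dsz k (ci c) ((ε : 𝓞 k) ^ 2 * D) := by
        unfold dsz
        rw [eq_div_iff (by positivity)]
        exact h
      rw [← h']
      exact hL
    let y : F := ⟨(c, (ε : 𝓞 k) ^ 2 * D), ⟨hmul, hds⟩⟩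
    refine ⟨e (Quotient.mk S y), ?_⟩
    have h1 : rep (e (Quotient.mk S y)) = (Quotient.mk S y).out := by
      change (e.symm (e (Quotient.mk S y))).out = _
      rw [Equiv.symm_apply_apply]
    have h2 : Nonempty (K (rep (e (Quotient.mk S y))) ≃ₐ[k] K y) := by
      rw [h1]
      exact Quotient.mk_out y
    have h3 : Nonempty (K y ≃ₐ[k] L) :=
      (hKDT k (K y) L (ci c) ((ε : 𝓞 k) ^ 2 * D) (b y) _ (δ y) (hKD y)).2 _ hKD₂
    obtain ⟨e2⟩ := h2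
    obtain ⟨e3⟩ := h3
    exact ⟨(e2.trans e3).symm⟩

end Pool.Agent.H6.NV
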