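import Pool.Agent.H95.NV.Targets2

/-!
# (LFX): the `L`-function as a sum of Epstein zeta functions
-/

set_option autoImplicit false

open NumberField
open scoped nonZeroDivisors

namespace Pool.Agent.H6.NV

open Pool.Agent.H95.NV NumberField
open Pool.Agent.H65.CM4 (Pl rv nm dk dg V2 Fo)
open Pool.Agent.H31.CN (IsLf NV)
open Pool.Agent.H61.NVK (ci cr Lb nf Vk zf)
open Pool.Agent.H89.NV (PrI np nS idS Zc em sd)

theorem pf_LFX (hBIJ : T_BIJ) (_hIDC : T_IDC) (_hBRA : T_BRA) : T_LFX := by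
  classical
  intro k _ _ _ hEPS K _ _ _ _ _ f D b₀ δ A b I hKD hT hFam ψ φ hφ
  have hE : ∀ x : Gk k K, ∃ F : ℂ → ℂ, DifferentiableOn ℂ F {1}ᶜ ∧
      (∀ s : ℂ, 1 < s.re → HasSum (fun J : (Ideal (𝓞 K))⁰ =>
        if cl k K J = x then ((nm (J : Ideal (𝓞 K)) : ℝ) : ℂ) ^ (-s) else 0) (F s)) ∧
      F (1 / 2) = ((zf (A x) f (em (b x)) (em D) : ℝ) : ℂ) := by
    intro x
    obtain ⟨-, F, hF, hs, hv⟩ := hEPS (A x) f (em (b x)) (em D) hKD.f_ne (hFam.adm x).1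
      (fun v => hKD.pos v)
    refine ⟨F, hF, fun s hs1 => ?_, hv⟩
    obtain ⟨e, he, -⟩ := hBIJ k K f D b₀ δ hKD hT (A x) (b x) (I x) (hFam.adm x) (hFam.ide x)
    have h1 := hs s hs1
    have h2 : HasSum (fun p : {p : ClassGroup (𝓞 k) × V2 k //
        p.2 ∈ Lb (ci p.1) (A x * f) ∧ p.2 ∈ Fo k} =>
        ((nf (ci p.1.1) (A x) f (em (b x)) (em D) p.1.2 : ℝ) : ℂ) ^ (-s)) (F s) := by
      have h3 := (hasSum_subtype_iff_indicator (s := {p : ClassGroup (𝓞 k) × V2 k |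
        p.2 ∈ Lb (ci p.1) (A x * f) ∧ p.2 ∈ Fo k}) (a := F s)
        (f := fun p : ClassGroup (𝓞 k) × V2 k =>
          ((nf (ci p.1) (A x) f (em (b x)) (em D) p.2 : ℝ) : ℂ) ^ (-s))).2
      refine h3 ?_
      refine (congrArg (fun g => HasSum g (F s)) ?_).mp h1
      funext p
      rw [Set.indicator_apply]
      rfl
    have h4 : HasSum (fun J : {J : (Ideal (𝓞 K))⁰ // cl k K J = (cl k K (I x))⁻¹} =>
        ((nm (J.1 : Ideal (𝓞 K)) : ℝ) : ℂ) ^ (-s)) (F s) := by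
      rw [← e.hasSum_iff]
      refine (congrArg (fun g => HasSum g (F s)) ?_).mp h2
      funext p
      simp only [Function.comp]
      rw [he p]
    rw [hFam.cls x, inv_inv] at h4
    have h5 := (hasSum_subtype_iff_indicator (s := {J : (Ideal (𝓞 K))⁰ | cl k K J = x})
        (a := F s) (f := fun J : (Ideal (𝓞 K))⁰ =>
          ((nm (J : Ideal (𝓞 K)) : ℝ) : ℂ) ^ (-s))).1 h4
    refine (congrArg (fun g => HasSum g (F s)) ?_).mp h5
    funext J
    rw [Set.indicator_apply]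
    rfl
  choose F hF hs hv using hE
  refine ⟨fun s => ∑ x, ((φ x : ℂˣ) : ℂ) * F x s, ⟨?_, ?_⟩, ?_⟩
  · exact DifferentiableOn.fun_sum fun x _ => (hF x).const_mul _
  · intro s hs1
    have h1 := hasSum_sum (s := Finset.univ) fun (x : Gk k K) _ =>
      (hs x s hs1).mul_left ((φ x : ℂˣ) : ℂ)
    refine (congrArg (fun g => HasSum g _) ?_).mp h1
    funext J
    have h2 : ∀ x : Gk k K, ((φ x : ℂˣ) : ℂ) *
        (if cl k K J = x then ((nm (J : Ideal (𝓞 K)) : ℝ) : ℂ) ^ (-s) else 0) =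
        if cl k K J = x then ((φ x : ℂˣ) : ℂ) * ((nm (J : Ideal (𝓞 K)) : ℝ) : ℂ) ^ (-s)
          else 0 := by
      intro x
      split_ifs
      · rfl
      · rw [mul_zero]
    simp only [h2]
    rw [Finset.sum_ite_eq, if_pos (Finset.mem_univ _)]
    have h3 : φ (cl k K J) = ψ (ClassGroup.mk0 J) := hφ _
    rw [h3]
    congr 2
  · refine Finset.sum_congr rfl fun x _ => ?_
    rw [hv x]

end Pool.Agent.H6.NV
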