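import Pool.Agent.H95.NV.Targets2
import Pool.Agent.H95.CN.CSG

/-!
# (PRA): the proportion for one field
-/

set_option autoImplicit false

open NumberField
open scoped nonZeroDivisors

namespace Pool.Agent.H6.NV

open Pool.Agent.H95.NV NumberField
open Pool.Agent.H65.CM4 (dg)
open Pool.Agent.H31.CN (NV)
open Pool.Agent.H89.NV (PrI Zc Uf CK em sd TrK prp)

theorem pf_PRA (hTRA : T_TRA) (hINQ : T_INQ) (hFMX : T_FMX) (hZVN : T_ZVN) (hCHC : T_CHC)
    (hBRA : T_BRA) (hBRK : T_BRK) (_hHKC : T_HKC) : T_PRA := by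
  classical
  intro k _ _ _ hUNF hAUT hEPS hVKD f D b K _ _ _ h hf hD hFnd hb hbD hsd
  obtain ⟨hKD, hTrv⟩ := hTRA k hAUT K f D b h hf hD hFnd hb hbD
  have hT := hTrv hsd
  obtain ⟨hq, -, -, -⟩ := (hBRK k K D).1 h
  haveI := hq
  obtain ⟨A, b', I, hFam, hA1, hb1⟩ := hFMX k K f D b h.s hKD
  obtain ⟨hfG, hfC, e, he, -, hcard⟩ := hCHC k K
  haveI : Fintype (Gk k K) := Fintype.ofFinite _
  have hG0 : 0 < Fintype.card (Gk k K) := Fintype.card_pos
  have hR : (0 : ℝ) < Fintype.card (Gk k K) := by exact_mod_cast hG0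
  have hcard' : (Nat.card {ψ : ClassGroup (𝓞 K) →* ℂˣ // TrK k K ψ} : ℝ) =
      (Fintype.card (Gk k K) : ℝ) := by
    rw [hcard, Nat.card_eq_fintype_card]
  haveI hfin2 : Finite {ψ : ClassGroup (𝓞 K) →* ℂˣ // TrK k K ψ} := inferInstance
  haveI hfin3 : Finite {ψ : ClassGroup (𝓞 K) →* ℂˣ // TrK k K ψ ∧ NV K ψ} := inferInstance
  refine ⟨div_nonneg (Nat.cast_nonneg _) (Nat.cast_nonneg _), ?_, ?_⟩
  · unfold prp
    rw [hcard', div_le_one hR, ← hcard']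
    have h1 : Nat.card {ψ : ClassGroup (𝓞 K) →* ℂˣ // TrK k K ψ ∧ NV K ψ} ≤
        Nat.card {ψ : ClassGroup (𝓞 K) →* ℂˣ // TrK k K ψ} := by
      refine Nat.card_le_card_of_injective (fun ψ => ⟨ψ.1, ψ.2.1⟩) ?_
      intro x y hxy
      exact Subtype.ext (congrArg (fun z => z.1) hxy)
    exact_mod_cast h1
  · intro S c
    have hIneq := hINQ k K f D b h hKD hT (Gk k K) A b' I (fun i => ⟨hFam.adm i, hFam.ide i⟩)
      (fun i j hij => by
        rw [hFam.cls i, hFam.cls j] at hij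
        exact inv_injective hij)
    have h2 := hUNF f D hf hD hFnd.1 K h S c (Gk k K) A b' (fun i => by
      have h3 := hFam.adm i
      refine ⟨h3.1, ?_⟩
      exact ((hBRA k).2.2.1 f (A i) D (b' i) h3.1).1 h3) hIneq
    have h1 := Pool.Agent.H95.CN.pf_CSG (Gk k K) (fun g => Zc f S c (A g) (b' g) D)
    simp only [hA1, hb1] at h1
    have h3 : (Nat.card {φ : Gk k K →* ℂˣ //
        ∑ g, ((φ g : ℂˣ) : ℂ) * ((Zc f S c (A g) (b' g) D : ℝ) : ℂ) ≠ 0} : ℝ) ≤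
        (Nat.card {ψ : ClassGroup (𝓞 K) →* ℂˣ // TrK k K ψ ∧ NV K ψ} : ℝ) := by
      have h4 : Nat.card {φ : Gk k K →* ℂˣ //
          ∑ g, ((φ g : ℂˣ) : ℂ) * ((Zc f S c (A g) (b' g) D : ℝ) : ℂ) ≠ 0} ≤
          Nat.card {ψ : ClassGroup (𝓞 K) →* ℂˣ // TrK k K ψ ∧ NV K ψ} := by
        refine Nat.card_le_card_of_injective (fun φ => ⟨(e φ.1).1, (e φ.1).2, ?_⟩) ?_
        · by_contra h5
          exact φ.2 (hZVN k hEPS hVKD K f D b h.s A b' I hKD hT hFam (e φ.1).1 φ.1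
            (he φ.1) h5 S c)
        · intro x y hxy
          have h6 : (e x.1).1 = (e y.1).1 := congrArg (fun z => z.1) hxy
          exact Subtype.ext (e.injective (Subtype.ext h6))
      exact_mod_cast h4
    set Z := Zc f S c ⊤ b D with hZ
    set W := 2 * ∑ m₁ ∈ S, ∑ m₂ ∈ S, c m₁ * c m₂ * Uf f m₁ m₂ D with hW
    set B : ℝ := ∑ g, Zc f S c (A g) (b' g) D ^ 2 with hB
    have hB0 : 0 ≤ B := Finset.sum_nonneg fun _ _ => sq_nonneg _
    set N : ℝ := (Nat.card {ψ : ClassGroup (𝓞 K) →* ℂˣ // TrK k K ψ ∧ NV K ψ} : ℝ) with hN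
    have hN0 : 0 ≤ N := Nat.cast_nonneg _
    set g : ℝ := (Fintype.card (Gk k K) : ℝ) with hg
    have h6 : (g * Z) ^ 2 ≤ N * (g * W) :=
      h1.trans ((mul_le_mul_of_nonneg_right h3 (mul_nonneg hR.le hB0)).trans
        (mul_le_mul_of_nonneg_left (mul_le_mul_of_nonneg_left h2 hR.le) hN0))
    have h7 : prp k K = N / g := by
      unfold prp
      rw [hcard']
    rw [h7, div_mul_eq_mul_div, le_div_iff₀ hR]
    have h8 : (Z ^ 2 * g) * g ≤ (N * W) * g := by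
      calc (Z ^ 2 * g) * g = (g * Z) ^ 2 := by ring
        _ ≤ _ := h6
        _ = _ := by ring
    exact le_of_mul_le_mul_right h8 hR

end Pool.Agent.H6.NV
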