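import Pool.Agent.H95.NV.Targets3

/-!
# (SHP): from smooth to sharp weights
-/

set_option autoImplicit false

open Set Filter

namespace Pool.Agent.H6.NV

open Pool.Agent.H95.NV

theorem bump (η l : ℝ) (h0 : 0 < η) (h1 : η < 1) (h2 : 1 < l) (h3 : l ≤ 2) :
    ∃ w : ℝ → ℝ, SW w ∧ (∀ x, w x ≤ 1) ∧ (∀ x, η ≤ x → x ≤ 1 → w x = 1) ∧
      ∀ x, l ≤ x → w x = 0 := by
  set e : ℝ := min (η / 2) (l - 1) with he
  have he0 : 0 < e := lt_min (by linarith) (by linarith)
  have he1 : e ≤ η / 2 := min_le_left _ _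
  have he2 : e ≤ l - 1 := min_le_right _ _
  let f : ContDiffBump ((1 + η) / 2 : ℝ) :=
    { rIn := (1 - η) / 2
      rOut := (1 - η) / 2 + e
      rIn_pos := by linarith
      rIn_lt_rOut := by linarith }
  have hz : ∀ x, (x ≤ η / 2 ∨ l ≤ x) → f x = 0 := by
    intro x hx
    refine f.zero_of_le_dist ?_
    change (1 - η) / 2 + e ≤ dist x ((1 + η) / 2)
    rw [Real.dist_eq]
    rcases hx with hx | hx
    · rw [abs_of_nonpos (by linarith)]
      linarith
    · rw [abs_of_nonneg (by linarith)]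
      linarith
  refine ⟨f, ⟨f.contDiff, ⟨η / 2, by linarith, ?_⟩, fun x => f.nonneg, ⟨(1 + η) / 2, ?_⟩⟩,
    fun x => f.le_one, ?_, fun x hx => hz x (Or.inr hx)⟩
  · intro x hx
    apply hz
    by_contra h
    push Not at h
    apply hx
    refine ⟨h.1.le, h.2.le.trans (h3.trans ?_)⟩
    rw [le_div_iff₀ (by linarith)]
    linarith
  · have : f ((1 + η) / 2) = 1 := by
      refine f.one_of_mem_closedBall ?_
      exact Metric.mem_closedBall_self f.rIn_pos.le
    rw [this]
    exact one_pos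
  · intro x hx hx1
    refine f.one_of_mem_closedBall ?_
    rw [Metric.mem_closedBall, Real.dist_eq, abs_le]
    change -((1 - η) / 2) ≤ _ ∧ _ ≤ (1 - η) / 2
    constructor <;> linarith

open Classical in
theorem pf_SHP : T_SHP := by
  intro I m s p θ hθ hm hfin hyp
  -- comparison of sums
  have hts : ∀ (Y : ℝ) (g h k : I → ℝ),
      (∀ i, (m i = 0 ∨ Y < s i) → g i = 0 ∧ h i = 0 ∧ k i = 0) →
      (∀ i, m i ≠ 0 → g i ≤ h i + k i) → ∑' i, g i ≤ ∑' i, h i + ∑' i, k i := by
    intro Y g h k h0 h1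
    have hF : ∀ i, i ∉ (hfin Y).toFinset → m i = 0 ∨ Y < s i := by
      intro i hi
      rw [Set.Finite.mem_toFinset, mem_setOf_eq] at hi
      by_contra hc
      push Not at hc
      exact hi hc
    rw [tsum_eq_sum (s := (hfin Y).toFinset) fun i hi => (h0 i (hF i hi)).1,
      tsum_eq_sum (s := (hfin Y).toFinset) fun i hi => (h0 i (hF i hi)).2.1,
      tsum_eq_sum (s := (hfin Y).toFinset) fun i hi => (h0 i (hF i hi)).2.2,
      ← Finset.sum_add_distrib]
    refine Finset.sum_le_sum fun i hi => h1 i ?_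
    rw [Set.Finite.mem_toFinset, mem_setOf_eq] at hi
    exact hi.1
  have hts0 : ∀ (Y : ℝ) (g h : I → ℝ),
      (∀ i, (m i = 0 ∨ Y < s i) → g i = 0 ∧ h i = 0) →
      (∀ i, m i ≠ 0 → g i ≤ h i) → ∑' i, g i ≤ ∑' i, h i := by
    intro Y g h h0 h1
    have h2 := hts Y g h (fun _ => 0) (fun i hi => ⟨(h0 i hi).1, (h0 i hi).2, rfl⟩)
      (fun i hi => by rw [add_zero]; exact h1 i hi)
    rwa [tsum_zero, add_zero] at h2
  set N : ℝ → ℝ := fun X => ∑' i, (if s i ≤ X then m i else 0) with hN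
  set Q : ℝ → ℝ := fun X => ∑' i, (if s i ≤ X then m i * p i else 0) with hQ
  have hN0 : ∀ X, 0 ≤ N X := fun X => tsum_nonneg fun i => by
    split_ifs
    · exact (hm i).1
    · exact le_rfl
  have hQ0 : ∀ X, 0 ≤ Q X := fun X => tsum_nonneg fun i => by
    split_ifs
    · exact mul_nonneg (hm i).1 (hm i).2.1
    · exact le_rfl
  have hNm : ∀ X Y, X ≤ Y → N X ≤ N Y := by
    intro X Y hXY
    refine hts0 Y _ _ (fun i hi => ?_) fun i _ => ?_
    · rcases hi with hi | hi
      · simp [hi]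
      · rw [if_neg (by linarith), if_neg (by linarith)]
        exact ⟨rfl, rfl⟩
    · split_ifs with h1 h2 h2
      · exact le_rfl
      · exact absurd (h1.trans hXY) h2
      · exact (hm i).1
      · exact le_rfl
  -- smooth sums
  have hup : ∀ (w : ℝ → ℝ) (l X : ℝ), (∀ x, w x ≤ 1) → (∀ x, 0 ≤ w x) → (∀ x, l ≤ x → w x = 0) →
      0 < X → ∑' i, m i * w (s i / X) * p i ≤ Q (l * X) ∧
        ∑' i, m i * w (s i / X) * p i ≤ N (l * X) := by
    intro w l X h1 h2 h3 hX
    have h4 : ∀ i, l * X < s i → w (s i / X) = 0 := by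
      intro i hi
      apply h3
      rw [le_div_iff₀ hX]
      exact hi.le
    constructor
    · refine hts0 (l * X) _ _ (fun i hi => ?_) fun i _ => ?_
      · rcases hi with hi | hi
        · simp [hi]
        · rw [h4 i hi, if_neg (by linarith)]
          simp
      · split_ifs with h5
        · refine mul_le_mul_of_nonneg_right ?_ (hm i).2.1
          exact mul_le_of_le_one_right (hm i).1 (h1 _)
        · rw [h4 i (not_le.1 h5)]
          simp
    · refine hts0 (l * X) _ _ (fun i hi => ?_) fun i _ => ?_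
      · rcases hi with hi | hi
        · simp [hi]
        · rw [h4 i hi, if_neg (by linarith)]
          simp
      · split_ifs with h5
        · calc m i * w (s i / X) * p i ≤ m i * w (s i / X) * 1 :=
              mul_le_mul_of_nonneg_left (hm i).2.2.1 (mul_nonneg (hm i).1 (h2 _))
            _ ≤ m i := by
              rw [mul_one]
              exact mul_le_of_le_one_right (hm i).1 (h1 _)
        · rw [h4 i (not_le.1 h5)]
          simp
  have hlo : ∀ (w : ℝ → ℝ) (η l X : ℝ), (∀ x, 0 ≤ w x) → (∀ x, l ≤ x → w x = 0) →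
      (∀ x, η ≤ x → x ≤ 1 → w x = 1) → 0 < X → 1 ≤ l → η ≤ 1 →
      N X ≤ N (η * X) + ∑' i, m i * w (s i / X) := by
    intro w η l X h1 h2 h3 hX hl hη
    refine hts (l * X) _ _ _ (fun i hi => ?_) fun i _ => ?_
    · rcases hi with hi | hi
      · simp [hi]
      · have h4 : X ≤ l * X := le_mul_of_one_le_left hX.le hl
        have h5 : η * X ≤ X := mul_le_of_le_one_left hX.le hη
        have h6 : w (s i / X) = 0 := by
          apply h2
          rw [le_div_iff₀ hX]
          exact hi.le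
        rw [if_neg (by linarith), if_neg (by linarith), h6, mul_zero]
        exact ⟨rfl, rfl, rfl⟩
    · have h7 : 0 ≤ m i * w (s i / X) := mul_nonneg (hm i).1 (h1 _)
      split_ifs with h4 h5 h5
      · linarith
      · rw [h3 (s i / X)]
        · rw [mul_one, zero_add]
        · rw [le_div_iff₀ hX]
          exact (not_le.1 h5).le
        · rw [div_le_one hX]
          exact h4
      · linarith [(hm i).1]
      · linarith
  obtain ⟨w0, hw0, hw01, hw02, hw03⟩ := bump (1 / 2) 2 (by norm_num) (by norm_num) (by norm_num)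
    le_rfl
  -- upper bound
  obtain ⟨c, hc, X0, hX0⟩ := hyp w0 hw0 1 one_pos
  set X1 : ℝ := max X0 1 with hX1
  have hX1' : 1 ≤ X1 := le_max_right _ _
  have hX01 : X0 ≤ X1 := le_max_left _ _
  have hstep : ∀ X, X1 ≤ X → N X ≤ N (X / 2) + 2 * c * X := by
    intro X hX
    have h1 := hlo w0 (1 / 2) 2 X hw0.nonneg hw03 hw02 (by linarith) (by norm_num) (by norm_num)
    have h2 := (hX0 X (hX01.trans hX)).2
    rw [show (1 / 2 : ℝ) * X = X / 2 by ring] at h1
    linarith
  have hind : ∀ n : ℕ, ∀ X : ℝ, 0 < X → X ≤ 2 ^ n * X1 → N X ≤ N X1 + 4 * c * X := by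
    intro n
    induction n with
    | zero =>
      intro X hX h
      rw [pow_zero, one_mul] at h
      have := hNm X X1 h
      have h2 : 0 ≤ 4 * c * X := by positivity
      linarith
    | succ n ih =>
      intro X hX h
      by_cases h1 : X ≤ X1
      · have := hNm X X1 h1
        have h2 : 0 ≤ 4 * c * X := by positivity
        linarith
      · have h2 := hstep X (not_le.1 h1).le
        have h3 := ih (X / 2) (by linarith) (by rw [pow_succ] at h; linarith)
        linarith
  set C1 : ℝ := N X1 + 4 * c with hC1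
  have hC1p : 0 < C1 := by
    have := hN0 X1
    linarith
  have hNup : ∀ X, 1 ≤ X → N X ≤ C1 * X := by
    intro X hX
    obtain ⟨n, hn⟩ := pow_unbounded_of_one_lt X (one_lt_two : (1 : ℝ) < 2)
    have h1 := hind n X (by linarith) (hn.le.trans (le_mul_of_one_le_right (by positivity) hX1'))
    have h2 : N X1 ≤ N X1 * X := le_mul_of_one_le_right (hN0 _) hX
    rw [hC1, add_mul]
    linarith
  -- lower bound
  obtain ⟨c', hc', X2, hX2⟩ := hyp w0 hw0 (θ / 2) (by linarith)
  set c1 : ℝ := θ * c' / 4 with hc1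
  have hc1p : 0 < c1 := by positivity
  set X3 : ℝ := max (2 * X2) 1 with hX3
  have hX3' : 1 ≤ X3 := le_max_right _ _
  have hNlo : ∀ X, X3 ≤ X → c1 * X ≤ N X := by
    intro X hX
    have h1 : 2 * X2 ≤ X3 := le_max_left _ _
    have h2 := (hX2 (X / 2) (by linarith)).1
    have h3 := (hup w0 2 (X / 2) hw01 hw0.nonneg hw03 (by linarith)).2
    rw [show 2 * (X / 2) = X by ring] at h3
    have h4 : (θ - θ / 2) * (c' * (X / 2)) = c1 * X := by
      rw [hc1]
      ring
    linarith
  refine ⟨⟨c1, C1, X3, hc1p, hC1p, fun X hX => ⟨hNlo X hX, hNup X (hX3'.trans hX)⟩⟩, ?_⟩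
  intro ε hε
  by_cases hεθ : θ ≤ ε
  · refine ⟨0, fun X _ => ?_⟩
    exact (mul_nonpos_of_nonpos_of_nonneg (by linarith) (hN0 X)).trans (hQ0 X)
  push Not at hεθ
  set e : ℝ := min 1 (ε / (1 + 5 * θ)) with he
  have h5θ : 0 < 1 + 5 * θ := by linarith
  have he0 : 0 < e := lt_min one_pos (by positivity)
  have he1 : e ≤ 1 := min_le_left _ _
  have he2 : e * (1 + 5 * θ) ≤ ε := by
    rw [← le_div_iff₀ h5θ]
    exact min_le_right _ _
  have hkey : (θ - ε) * ((1 + e) * (1 + 2 * e)) ≤ θ - e := by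
    have h1 : (1 + e) * (1 + 2 * e) ≤ 1 + 5 * e := by nlinarith
    have h2 : (θ - ε) * ((1 + e) * (1 + 2 * e)) ≤ (θ - ε) * (1 + 5 * e) :=
      mul_le_mul_of_nonneg_left h1 (by linarith)
    nlinarith
  set η : ℝ := min (1 / 2) (e * c1 / (4 * C1)) with hη
  have hη0 : 0 < η := lt_min (by norm_num) (by positivity)
  have hη1 : η ≤ 1 / 2 := min_le_left _ _
  have hη2 : C1 * η ≤ e * c1 / 4 := by
    have h1 : η ≤ e * c1 / (4 * C1) := min_le_right _ _
    calc C1 * η ≤ C1 * (e * c1 / (4 * C1)) := mul_le_mul_of_nonneg_left h1 hC1p.le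
      _ = e * c1 / 4 := by field_simp
  obtain ⟨w, hw, hw1, hw2, hw3⟩ := bump η (1 + e) hη0 (by linarith) (by linarith) (by linarith)
  obtain ⟨d, hd, X4, hX4⟩ := hyp w hw e he0
  set X5 : ℝ := max (max X4 X3) (1 / η) with hX5
  have hX45 : X4 ≤ X5 := (le_max_left _ _).trans (le_max_left _ _)
  have hX35 : X3 ≤ X5 := (le_max_right _ _).trans (le_max_left _ _)
  have hη5 : 1 / η ≤ X5 := le_max_right _ _
  have hmain : ∀ X, X5 ≤ X → N X ≤ (1 + 2 * e) * (d * X) := by
    intro X hX
    have hX1 : 1 ≤ X := hX3'.trans (hX35.trans hX)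
    have h1 : 1 ≤ η * X := by
      have := hη5.trans hX
      rwa [div_le_iff₀' hη0] at this
    have h2 := hlo w η (1 + e) X hw.nonneg hw3 hw2 (by linarith) (by linarith) (by linarith)
    have h3 := hNup (η * X) h1
    have h4 := (hX4 X (hX45.trans hX)).2
    have h5 := hNlo X (hX35.trans hX)
    have h6 : C1 * (η * X) ≤ e * c1 / 4 * X := by
      rw [← mul_assoc]
      exact mul_le_mul_of_nonneg_right hη2 (by linarith)
    have h7 : c1 / 4 ≤ d := by
      have h8 : c1 * X ≤ e * c1 / 4 * X + (1 + e) * (d * X) := by linarith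
      have h9 : c1 ≤ e * c1 / 4 + (1 + e) * d := by
        have h10 : c1 * X ≤ (e * c1 / 4 + (1 + e) * d) * X := by linarith
        exact le_of_mul_le_mul_right h10 (by linarith)
      nlinarith
    have h8 : e * c1 / 4 * X ≤ e * d * X := by
      refine mul_le_mul_of_nonneg_right ?_ (by linarith)
      calc e * c1 / 4 = e * (c1 / 4) := by ring
        _ ≤ e * d := mul_le_mul_of_nonneg_left h7 he0.le
    linarith
  refine ⟨(1 + e) * X5, fun Y hY => ?_⟩
  have h1e : 0 < 1 + e := by linarith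
  set X : ℝ := Y / (1 + e) with hX
  have hYX : (1 + e) * X = Y := by
    rw [hX]
    field_simp
  have hX5X : X5 ≤ X := by
    rw [hX, le_div_iff₀ h1e]
    linarith
  have hX1 : 1 ≤ X := hX3'.trans (hX35.trans hX5X)
  have hXY : X ≤ Y := by
    rw [← hYX]
    exact le_mul_of_one_le_left (by linarith) (by linarith)
  have h1 := hmain Y (hX5X.trans hXY)
  have h2 := (hup w (1 + e) X hw1 hw.nonneg hw3 (by linarith)).1
  have h3 := (hX4 X (hX45.trans hX5X)).1
  rw [hYX] at h2
  have h4 : (θ - ε) * N Y ≤ (θ - ε) * ((1 + 2 * e) * (d * Y)) :=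
    mul_le_mul_of_nonneg_left h1 (by linarith)
  have h5 : (θ - ε) * ((1 + 2 * e) * (d * Y)) = (θ - ε) * ((1 + e) * (1 + 2 * e)) * (d * X) := by
    rw [← hYX]
    ring
  have h6 : (θ - ε) * ((1 + e) * (1 + 2 * e)) * (d * X) ≤ (θ - e) * (d * X) :=
    mul_le_mul_of_nonneg_right hkey (by positivity)
  exact (h4.trans (h5.le.trans h6)).trans (h3.trans h2)

end Pool.Agent.H6.NV
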