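import Pool.Agent.H95.NV.Targets3

/-!
# MP_347b49_nt, board nva, row SPP: the prime above a split prime
-/

set_option autoImplicit false

open NumberField
open scoped nonZeroDivisors

namespace Pool.Agent.H6.NV

open Pool.Agent.H95.NV
open Pool.Agent.H65.CM4 (Pl rv nm dk dg V2 Fo)
open Pool.Agent.H61.NVK (ci cr Lb nf Vk zf)
open Pool.Agent.H89.NV (PrI np nS idS)

section

variable {k K : Type} [Field k] [NumberField k] [Field K] [NumberField K] [Algebra k K]

theorem SPP_ext [Algebra.IsQuadraticExtension k K] (e : Ideal (𝓞 k)) :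
    Ideal.relNorm (𝓞 k) (e.map (algebraMap (𝓞 k) (𝓞 K))) = e ^ 2 := by
  rw [Ideal.relNorm_algebraMap, ← IsFractionRing.finrank_eq (𝓞 k) k (𝓞 K) K,
    Algebra.IsQuadraticExtension.finrank_eq_two k K]

theorem SPP_top {a : Ideal (𝓞 K)} (h : Ideal.relNorm (𝓞 k) a = ⊤) : a = ⊤ := by
  rw [← Ideal.absNorm_eq_one_iff, ← Ideal.absNorm_relNorm (𝓞 k) (𝓞 K) a, h, Ideal.absNorm_top]

theorem SPP_prime {p : Ideal (𝓞 K)} {P : Ideal (𝓞 k)} (hP : P.IsPrime) (hP0 : P ≠ ⊥)
    (h : Ideal.relNorm (𝓞 k) p = P) : Prime p := by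
  have hPr : Prime P := Ideal.prime_of_isPrime hP0 hP
  rw [← irreducible_iff_prime]
  constructor
  · intro hu
    rw [Ideal.isUnit_iff] at hu
    subst hu
    rw [Ideal.relNorm_top] at h
    exact hP.ne_top h.symm
  · intro a b hab
    have h1 : P = Ideal.relNorm (𝓞 k) a * Ideal.relNorm (𝓞 k) b := by
      rw [← map_mul, ← hab, h]
    rcases hPr.irreducible.isUnit_or_isUnit h1 with h2 | h2
    · left
      rw [Ideal.isUnit_iff] at h2 ⊢
      exact SPP_top h2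
    · right
      rw [Ideal.isUnit_iff] at h2 ⊢
      exact SPP_top h2

/-- if a power of `p` comes from `k` then `p` is ramified -/
theorem SPP_ram [Algebra.IsQuadraticExtension k K] {p : Ideal (𝓞 K)} {P : Ideal (𝓞 k)}
    (hP : P.IsPrime) (hP0 : P ≠ ⊥) (h : Ideal.relNorm (𝓞 k) p = P)
    (hle : P.map (algebraMap (𝓞 k) (𝓞 K)) ≤ p) (j : ℕ) (hj : 1 ≤ j) (e : Ideal (𝓞 k))
    (he : p ^ j = e.map (algebraMap (𝓞 k) (𝓞 K))) :
    P.map (algebraMap (𝓞 k) (𝓞 K)) = p * p := by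
  have hPr : Prime P := Ideal.prime_of_isPrime hP0 hP
  have hp : Prime p := SPP_prime hP hP0 h
  obtain ⟨p', hp'⟩ : p ∣ P.map (algebraMap (𝓞 k) (𝓞 K)) := Ideal.dvd_iff_le.2 hle
  have hn : Ideal.relNorm (𝓞 k) p' = P := by
    have h1 : P ^ 2 = P * Ideal.relNorm (𝓞 k) p' := by
      rw [← SPP_ext (K := K) P, hp', map_mul, h]
    rw [sq] at h1
    exact (mul_left_cancel₀ hPr.ne_zero h1).symm
  have hpp : Prime p' := SPP_prime hP hP0 hn
  have h2 : P ^ j = e ^ 2 := by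
    rw [← SPP_ext (K := K) e, ← he, map_pow, h]
  obtain ⟨i, hi, he2⟩ : ∃ i ≤ j, Associated e (P ^ i) := by
    refine (dvd_prime_pow hPr j).1 ?_
    rw [h2]
    exact dvd_pow_self e two_ne_zero
  rw [associated_iff_eq] at he2
  subst he2
  have hij : j = 2 * i := by
    rw [← pow_mul] at h2
    have := (pow_inj_of_not_isUnit hPr.not_isUnit hPr.ne_zero).1 h2
    omega
  subst hij
  have h3 : p ^ i = p' ^ i := by
    rw [Ideal.map_pow, hp', mul_pow, two_mul, pow_add] at he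
    exact mul_left_cancel₀ (pow_ne_zero _ hp.ne_zero) he
  have h4 : p' ∣ p := by
    refine hpp.dvd_of_dvd_pow (n := i) ?_
    rw [h3]
    exact dvd_pow_self _ (by omega)
  have h5 : p' = p := by
    obtain ⟨u, hu⟩ := h4
    have h6 : P = P * Ideal.relNorm (𝓞 k) u := by
      conv_lhs => rw [← h, hu, map_mul, hn]
    have h7 : Ideal.relNorm (𝓞 k) u = 1 := by
      have h8 : P * 1 = P * Ideal.relNorm (𝓞 k) u := by rw [mul_one]; exact h6
      exact (mul_left_cancel₀ hPr.ne_zero h8).symm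
    have h9 : u = ⊤ := SPP_top (k := k) (by rw [h7, Ideal.one_eq_top])
    rw [hu, h9, Ideal.mul_top]
  rw [hp', h5]

end

theorem pf_SPP (hCOO : T_COO) (hFNV : T_FNV) (hIDC : T_IDC) (hIDR : T_IDR) : T_SPP := by
  intro k K _ _ _ _ _ _ _ f D b δ hKD P h2 hspl
  have hPp : P.1.IsPrime := P.2.1
  have hP0 : P.1 ≠ ⊥ := P.2.2
  have hPm : P.1.IsMaximal := hPp.isMaximal hP0
  obtain ⟨⟨j, hjf, hj⟩, hD⟩ := hspl
  obtain ⟨-, hbf, c, hc, hc4⟩ := hKD.adm
  rw [Ideal.top_mul] at hc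
  obtain ⟨s, t, ht, hst⟩ := hPm.exists_inv h2
  -- the middle coefficient
  have hh : s * (j - b) ∈ f := Ideal.mul_mem_left _ _ (Ideal.sub_mem _ hjf hbf)
  set h := s * (j - b) with hhdef
  have hb'f : b + 2 * h ∈ f := Ideal.add_mem _ hbf (Ideal.mul_mem_left _ _ hh)
  set b' := b + 2 * h with hb'def
  have hb'j : b' = j + t * (b - j) := by
    rw [hb'def, hhdef]
    linear_combination (j - b) * hst
  have hc' : 4 * (c + b * h + h ^ 2) = b' ^ 2 + D := by
    rw [hb'def]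
    linear_combination hc4
  set c' := c + b * h + h ^ 2 with hc'def
  have hc'f : c' ∈ f ^ 2 := by
    rw [hc'def]
    refine Ideal.add_mem _ (Ideal.add_mem _ hc ?_) ?_
    · rw [sq]
      exact Ideal.mul_mem_mul hbf hh
    · exact Ideal.pow_mem_pow hh 2
  have h4c' : 4 * c' ∈ P.1 * f ^ 2 := by
    rw [hc', hb'j]
    have e1 : (j + t * (b - j)) ^ 2 + D = (j ^ 2 + D) + t * (2 * j * (b - j) + t * (b - j) ^ 2) := by
      ring
    rw [e1]
    refine Ideal.add_mem _ hj (Ideal.mul_mem_mul ht ?_)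
    have hbj : b - j ∈ f := Ideal.sub_mem _ hbf hjf
    refine Ideal.add_mem _ ?_ (Ideal.mul_mem_left _ _ (Ideal.pow_mem_pow hbj 2))
    rw [mul_assoc]
    refine Ideal.mul_mem_left _ _ ?_
    rw [sq]
    exact Ideal.mul_mem_mul hjf hbj
  have hc'P : c' ∈ P.1 * f ^ 2 := by
    have e1 : c' = s ^ 2 * (4 * c') + t * ((4 * s + t) * c') := by
      linear_combination (-c') * (s * 2 + t + 1) * hst
    rw [e1]
    exact Ideal.add_mem _ (Ideal.mul_mem_left _ _ h4c')
      (Ideal.mul_mem_mul ht (Ideal.mul_mem_left _ _ hc'f))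
  have hadm : Adm f D P.1 b' := ⟨hP0, hb'f, c', hc'P, hc'⟩
  obtain ⟨hI1, -, -, -, hI5⟩ := hIDC k K f D b δ hKD P.1 b' hadm
  obtain ⟨hR1, -⟩ := hIDR k K f D b δ hKD P.1 b' hadm
  refine ⟨Id f P.1 b' δ, hI5, hR1, ?_⟩
  intro i e hi he
  have hle : P.1.map (algebraMap (𝓞 k) (𝓞 K)) ≤ Id f P.1 b' δ := le_sup_left
  have hram := SPP_ram hPp hP0 hR1 hle i hi e he
  -- the integers of `K` in the coordinates of `b'`
  obtain ⟨-, hT2, -, hT4, -⟩ := hIDC k K f D b δ hKD ⊤ b hKD.adm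
  obtain ⟨hT2a, -, hT2c⟩ := hT2 h (by rw [Ideal.top_mul]; exact hh)
  obtain ⟨hT1, -⟩ := hIDC k K f D b δ hKD ⊤ b' hT2c
  have hint : ∀ z : 𝓞 K, ∃ x : 𝓞 k, ∃ q ∈ fi f,
      (z : K) = algebraMap k K (x : k) + algebraMap k K q * w b' δ := by
    intro z
    obtain ⟨x, -, q, hq, hz⟩ := (hT1 z).1 (by rw [hT2a, hT4]; trivial)
    exact ⟨x, q, hq, hz⟩
  -- the elements of `P O_K`
  have hPO : ∀ z : 𝓞 K, z ∈ P.1.map (algebraMap (𝓞 k) (𝓞 K)) → ∃ (x q : k),
      (∀ a ∈ f, ∃ u ∈ P.1, (u : k) = q * (a : k)) ∧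
      (z : K) = algebraMap k K x + algebraMap k K q * w b' δ := by
    intro z hz
    have hz' : z ∈ (P.1 • (⊤ : Submodule (𝓞 k) (𝓞 K))) := by
      rw [Ideal.smul_top_eq_map]
      exact hz
    refine Submodule.smul_induction_on hz' ?_ ?_
    · intro r hr n _
      obtain ⟨x, q, hq, hn⟩ := hint n
      refine ⟨(r : k) * (x : k), (r : k) * q, ?_, ?_⟩
      · intro a ha
        obtain ⟨u, hu⟩ := hq a ha
        refine ⟨r * u, Ideal.mul_mem_right _ _ hr, ?_⟩
        have : ((r * u : 𝓞 k) : k) = (r : k) * (u : k) := rfl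
        rw [this, hu]
        ring
      · have e1 : ((r • n : 𝓞 K) : K) = algebraMap k K (r : k) * (n : K) := by
          rw [Algebra.smul_def]
          rfl
        rw [e1, hn, map_mul, map_mul]
        ring
    · rintro z₁ z₂ ⟨x₁, q₁, hq₁, e₁⟩ ⟨x₂, q₂, hq₂, e₂⟩
      refine ⟨x₁ + x₂, q₁ + q₂, ?_, ?_⟩
      · intro a ha
        obtain ⟨u₁, hu₁, h₁⟩ := hq₁ a ha
        obtain ⟨u₂, hu₂, h₂⟩ := hq₂ a ha
        refine ⟨u₁ + u₂, Ideal.add_mem _ hu₁ hu₂, ?_⟩
        have : ((u₁ + u₂ : 𝓞 k) : k) = (u₁ : k) + (u₂ : k) := rfl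
        rw [this, h₁, h₂]
        ring
      · have : ((z₁ + z₂ : 𝓞 K) : K) = (z₁ : K) + (z₂ : K) := rfl
        rw [this, e₁, e₂, map_add, map_add]
        ring
  obtain ⟨-, hC2, -, -⟩ := hCOO k K D b' δ hKD.pos hKD.sq
  have hww : w b' δ * w b' δ = algebraMap k K (b' : k) * w b' δ - algebraMap k K (c' : k) := by
    have e1 : algebraMap k K ((4 * c' : 𝓞 k) : k) = algebraMap k K ((b' ^ 2 + D : 𝓞 k) : k) := by
      rw [hc']
    have e2 : 4 * algebraMap k K (c' : k) = algebraMap k K (b' : k) ^ 2 + algebraMap k K (D : k) := by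
      have e3 : ((4 * c' : 𝓞 k) : k) = 4 * (c' : k) := by
        push_cast
        rfl
      have e4 : ((b' ^ 2 + D : 𝓞 k) : k) = (b' : k) ^ 2 + (D : k) := by
        push_cast
        rfl
      rw [e3, e4, map_mul, map_add, map_pow, map_ofNat] at e1
      exact e1
    unfold w
    linear_combination (1 / 4 : K) * hKD.sq + (1 / 4 : K) * e2
  have hprod : ∀ q ∈ fi f, ∀ q' ∈ fi f, ∀ a ∈ f, ∃ u ∈ P.1, (u : k) = q * q' * (b' : k) * (a : k) := by
    intro q hq q' hq' a ha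
    have hz : ∀ q ∈ fi f, ∃ z : 𝓞 K, z ∈ Id f P.1 b' δ ∧ (z : K) = algebraMap k K q * w b' δ := by
      intro q hq
      have hz0 : ∃ z : 𝓞 K, (z : K) = algebraMap k K q * w b' δ := by
        obtain ⟨u, hu⟩ := hq h hh
        refine (hKD.int _).2 ⟨u, q, hq, ?_⟩
        have e1 : w b' δ = w b δ + algebraMap k K (h : k) := by
          have e2 : algebraMap k K (b' : k) = algebraMap k K (b : k) + 2 * algebraMap k K (h : k) := by
            rw [hb'def]
            have e3 : ((b + 2 * h : 𝓞 k) : k) = (b : k) + 2 * (h : k) := by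
              push_cast
              rfl
            rw [e3, map_add, map_mul, map_ofNat]
          unfold w
          rw [e2]
          ring
        rw [e1, hu, map_mul]
        ring
      obtain ⟨z, hz⟩ := hz0
      exact ⟨z, (hI1 z).2 ⟨0, Ideal.zero_mem _, q, hq, by rw [hz]; simp⟩, hz⟩
    obtain ⟨z, hz1, hz2⟩ := hz q hq
    obtain ⟨z', hz1', hz2'⟩ := hz q' hq'
    have hm : z * z' ∈ P.1.map (algebraMap (𝓞 k) (𝓞 K)) := by
      rw [hram]
      exact Ideal.mul_mem_mul hz1 hz1'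
    obtain ⟨x, y, hy, hxy⟩ := hPO _ hm
    have e1 : ((z * z' : 𝓞 K) : K) = (z : K) * (z' : K) := rfl
    rw [e1, hz2, hz2'] at hxy
    have e2 : algebraMap k K (x + q * q' * (c' : k)) +
        algebraMap k K (y - q * q' * (b' : k)) * w b' δ = 0 := by
      simp only [map_add, map_sub, map_mul]
      linear_combination (-1 : K) * hxy + algebraMap k K q * algebraMap k K q' * hww
    obtain ⟨-, e3⟩ := hC2 _ _ e2
    obtain ⟨u, hu, hu'⟩ := hy a ha
    refine ⟨u, hu, ?_⟩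
    rw [hu']
    linear_combination (a : k) * e3
  obtain ⟨⟨S, hS1, hS2⟩, -, -, -, -, hFN⟩ := hFNV k f hKD.f_ne
  have hb'P : b' ∈ P.1 * f := by
    obtain ⟨t', ht', e1⟩ := (hFN P.1 (b' : k)).1 (by
      intro q hq
      have hall : ∀ x : (𝓞 k) × k, ∃ u : 𝓞 k, x ∈ S → u ∈ P.1 ∧
          (u : k) = q * x.2 * (b' : k) * (x.1 : k) := by
        intro x
        by_cases hx : x ∈ S
        · obtain ⟨u, hu, hu'⟩ := hprod q hq x.2 (hS1 x hx).2 x.1 (hS1 x hx).1
          exact ⟨u, fun _ => ⟨hu, hu'⟩⟩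
        · exact ⟨0, fun h => absurd h hx⟩
      choose u hu using hall
      refine ⟨∑ x ∈ S, u x, Ideal.sum_mem _ fun x hx => (hu x hx).1, ?_⟩
      have e2 : ((∑ x ∈ S, u x : 𝓞 k) : k) = ∑ x ∈ S, (u x : k) := by
        rw [← map_sum]
      rw [e2, Finset.sum_congr rfl fun x hx => (hu x hx).2]
      calc ∑ x ∈ S, q * x.2 * (b' : k) * (x.1 : k) = q * (b' : k) * ∑ x ∈ S, (x.1 : k) * x.2 := by
            rw [Finset.mul_sum]
            exact Finset.sum_congr rfl fun x _ => by ring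
        _ = q * (b' : k) := by rw [hS2, mul_one])
    have e2 : t' = b' := RingOfIntegers.ext e1
    rw [← e2]
    exact ht'
  apply hD
  have e1 : D = 4 * c' - b' ^ 2 := by rw [hc']; ring
  rw [e1]
  refine Ideal.sub_mem _ h4c' ?_
  have e2 : b' ^ 2 = b' * b' := sq b'
  rw [e2, sq, ← mul_assoc]
  exact Ideal.mul_mem_mul hb'P hb'f

end Pool.Agent.H6.NV
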