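import Pool.Agent.H95.NV.Targets2

/-!
# (ZVN): if the central value vanishes then also the mollified one
-/

set_option autoImplicit false

open NumberField
open scoped nonZeroDivisors

namespace Pool.Agent.H6.NV

open Pool.Agent.H95.NV NumberField
open Pool.Agent.H65.CM4 (Pl rv nm dk dg V2 Fo)
open Pool.Agent.H31.CN (IsLf NV)
open Pool.Agent.H95.CM (Nr mem_Nr)
open Pool.Agent.H61.NVK (ci cr Lb nf Vk zf)
open Pool.Agent.H89.NV (PrI np nS idS Zc em sd)

section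

variable {k K : Type} [Field k] [NumberField k] [Field K] [NumberField K] [Algebra k K]

theorem nm_mul (I J : Ideal (𝓞 K)) : nm (I * J) = nm I * nm J := by
  unfold nm
  rw [map_mul]
  push_cast
  rfl

theorem nm_idS (m : Finset (PrI k)) : nm (idS m) = nS m := by
  unfold nm idS nS np nm
  rw [map_prod]
  push_cast
  rfl

theorem nS_pos (m : Finset (PrI k)) : 0 < nS m := by
  unfold nS
  refine Finset.prod_pos fun P _ => ?_
  unfold np nm
  have h : Ideal.absNorm P.1 ≠ 0 := by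
    rw [Ne, Ideal.absNorm_eq_zero_iff]
    exact P.2.2
  exact_mod_cast Nat.pos_of_ne_zero h

theorem nm_of_relNorm {Q : Ideal (𝓞 K)} {m : Finset (PrI k)}
    (hQ : Ideal.relNorm (𝓞 k) Q = idS m) : nm Q = nS m := by
  rw [← nm_idS m, ← hQ]
  unfold nm
  rw [Ideal.absNorm_relNorm]

theorem dvn_eq (m : Ideal (𝓞 k)) (J : Ideal (𝓞 K)) [DecidablePred fun Q : (Ideal (𝓞 K))⁰ =>
      (Q : Ideal (𝓞 K)) ∣ J] :
    dvn k m J = ((Nr k K m).filter (fun Q : (Ideal (𝓞 K))⁰ => (Q : Ideal (𝓞 K)) ∣ J)).card := by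
  classical
  unfold dvn
  have h : (do let a ← Nr k K m; pure ((a : (Ideal (𝓞 K))⁰) : Ideal (𝓞 K)) : Finset (Ideal (𝓞 K))) =
      Finset.image Subtype.val (Nr k K m : Finset (Ideal (𝓞 K))⁰) := by
    ext Q
    simp only [Finset.bind_def, Finset.mem_sup, Finset.pure_def, Finset.mem_singleton,
      Finset.mem_image]
    constructor
    · rintro ⟨a, h1, h2⟩; exact ⟨a, h1, h2.symm⟩
    · rintro ⟨a, h1, h2⟩; exact ⟨a, h1, h2.symm⟩
  rw [h, Finset.filter_image, Finset.card_image_of_injective _ Subtype.val_injective]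
  congr 1
  ext Q
  simp only [Finset.mem_filter]

theorem dvn_empty (J : Ideal (𝓞 K)) : dvn k (idS (∅ : Finset (PrI k))) J = 1 := by
  classical
  rw [dvn_eq, Finset.card_eq_one]
  refine ⟨1, ?_⟩
  ext Q
  rw [Finset.mem_filter, mem_Nr, Finset.mem_singleton]
  constructor
  · rintro ⟨h1, -⟩
    have h2 : nm (Q : Ideal (𝓞 K)) = 1 := by
      rw [nm_of_relNorm (m := ∅) h1]
      unfold nS
      simp
    have h3 : Ideal.absNorm (Q : Ideal (𝓞 K)) = 1 := by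
      unfold nm at h2
      exact_mod_cast h2
    rw [Ideal.absNorm_eq_one_iff] at h3
    exact Subtype.ext (h3.trans Ideal.one_eq_top.symm)
  · rintro rfl
    refine ⟨?_, ?_⟩
    · change Ideal.relNorm (𝓞 k) (1 : Ideal (𝓞 K)) = idS ∅
      rw [map_one]
      unfold idS
      simp
    · exact one_dvd _

theorem mul_inj (Q : (Ideal (𝓞 K))⁰) : Function.Injective fun J : (Ideal (𝓞 K))⁰ => Q * J := by
  intro J J' h
  have h1 : (Q : Ideal (𝓞 K)) * J = (Q : Ideal (𝓞 K)) * J' := by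
    have h2 := congrArg Subtype.val h
    exact h2
  exact Subtype.ext (mul_left_cancel₀ (nonZeroDivisors.ne_zero Q.2) h1)

end

theorem hs_congr {ι : Type} {f g : ι → ℂ} {a : ℂ} (h : ∀ i, f i = g i) (hf : HasSum f a) :
    HasSum g a := by
  rwa [funext h] at hf

theorem pf_ZVN (hLFX : T_LFX) (hZSJ : T_ZSJ) (_hSIJ : T_SIJ) (_hHKC : T_HKC) : T_ZVN := by
  classical
  intro k _ _ _ hEPS hVKD K _ _ _ _ _ f D b₀ δ A b I hKD hT hFam ψ φ hφ hNV S c
  obtain ⟨F, hF, hF2⟩ := hLFX k hEPS K f D b₀ δ A b I hKD hT hFam ψ φ hφ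
  have hF0 : F (1 / 2) = 0 := by
    by_contra h
    exact hNV ⟨F, hF, h⟩
  obtain ⟨-, hZ⟩ := hZSJ k hVKD K
  set y : ℝ := sd f (em D) with hy
  set pv : (Ideal (𝓞 K))⁰ → ℂ := fun J => ((ψ (ClassGroup.mk0 J) : ℂˣ) : ℂ) with hpv
  -- sums over all ideals
  have hL : ∀ (S : Finset (Finset (PrI k))) (c : Finset (PrI k) → ℝ),
      HasSum (fun J : (Ideal (𝓞 K))⁰ => pv J * ((zt k S c y (J : Ideal (𝓞 K)) : ℝ) : ℂ))
        (∑ x, ((φ x : ℂˣ) : ℂ) * ((Zc f S c (A x) (b x) D : ℝ) : ℂ)) := by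
    intro S c
    have h1 : ∀ x : Gk k K, HasSum (fun J : (Ideal (𝓞 K))⁰ => ((φ x : ℂˣ) : ℂ) *
        (((if cl k K J = x then zt k S c y (J : Ideal (𝓞 K)) else 0 : ℝ)) : ℂ))
        (((φ x : ℂˣ) : ℂ) * ((Zc f S c (A x) (b x) D : ℝ) : ℂ)) := by
      intro x
      have h2 := (hZ f D b₀ δ hKD hT (A x) (b x) (I x) (hFam.adm x) (hFam.ide x)).1 S c
      rw [hFam.cls x, inv_inv] at h2
      exact (Complex.hasSum_ofReal.2 h2).mul_left _
    have h3 := hasSum_sum (s := Finset.univ) fun x _ => h1 x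
    have h4 : (fun J : (Ideal (𝓞 K))⁰ => pv J * ((zt k S c y (J : Ideal (𝓞 K)) : ℝ) : ℂ)) =
        fun J : (Ideal (𝓞 K))⁰ => ∑ x : Gk k K, ((φ x : ℂˣ) : ℂ) *
          (((if cl k K J = x then zt k S c y (J : Ideal (𝓞 K)) else 0 : ℝ)) : ℂ) := by
      funext J
      have h5 : ∀ x : Gk k K, ((φ x : ℂˣ) : ℂ) *
          (((if cl k K J = x then zt k S c y (J : Ideal (𝓞 K)) else 0 : ℝ)) : ℂ) =
          if cl k K J = x then ((φ x : ℂˣ) : ℂ) * ((zt k S c y (J : Ideal (𝓞 K)) : ℝ) : ℂ)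
            else 0 := by
        intro x
        split_ifs
        · rfl
        · simp
      simp only [h5]
      rw [Finset.sum_ite_eq, if_pos (Finset.mem_univ _)]
      rw [hpv]
      change ((ψ (ClassGroup.mk0 J) : ℂˣ) : ℂ) * _ = ((φ (QuotientGroup.mk _) : ℂˣ) : ℂ) * _
      rw [hφ]
    rw [h4]
    exact h3
  -- the central value
  have h0 : HasSum (fun J : (Ideal (𝓞 K))⁰ => pv J *
      (((2 * Vk k (nm (J : Ideal (𝓞 K)) / y)) / Real.sqrt (nm (J : Ideal (𝓞 K))) : ℝ) : ℂ)) 0 := by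
    have h1 := hL {∅} (fun _ => 1)
    have h2 : (∑ x, ((φ x : ℂˣ) : ℂ) * ((Zc f {∅} (fun _ => 1) (A x) (b x) D : ℝ) : ℂ)) = 0 := by
      rw [← hF0, hF2]
      refine Finset.sum_congr rfl fun x _ => ?_
      rw [(hZ f D b₀ δ hKD hT (A x) (b x) (I x) (hFam.adm x) (hFam.ide x)).2]
    rw [h2] at h1
    have h3 : (fun J : (Ideal (𝓞 K))⁰ => pv J *
        ((zt k {∅} (fun _ => 1) y (J : Ideal (𝓞 K)) : ℝ) : ℂ)) =
        fun J : (Ideal (𝓞 K))⁰ => pv J *
      (((2 * Vk k (nm (J : Ideal (𝓞 K)) / y)) / Real.sqrt (nm (J : Ideal (𝓞 K))) : ℝ) : ℂ) := by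
      funext J
      congr 2
      unfold zt
      rw [Finset.sum_singleton, dvn_empty]
      have h4 : nS (∅ : Finset (PrI k)) = 1 := by unfold nS; simp
      rw [h4]
      simp
    rw [h3] at h1
    exact h1
  -- one divisor
  have h1 : ∀ (m : Finset (PrI k)) (Q : (Ideal (𝓞 K))⁰), Q ∈ Nr k K (idS m) →
      HasSum (fun J : (Ideal (𝓞 K))⁰ => if (Q : Ideal (𝓞 K)) ∣ (J : Ideal (𝓞 K)) then pv J *
        (((2 * Vk k (nm (J : Ideal (𝓞 K)) / (nS m * y))) / Real.sqrt (nm (J : Ideal (𝓞 K))) : ℝ) : ℂ)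
          else 0) 0 := by
    intro m Q hQ
    have hQn : nm (Q : Ideal (𝓞 K)) = nS m := nm_of_relNorm ((mem_Nr k).1 hQ)
    have hm := nS_pos m
    have h2 := h0.mul_left (pv Q / ((Real.sqrt (nS m) : ℝ) : ℂ))
    rw [mul_zero] at h2
    rw [← (mul_inj Q).hasSum_iff]
    · refine hs_congr (fun J => ?_) h2
      have h3 : (Q : Ideal (𝓞 K)) ∣ ((Q * J : (Ideal (𝓞 K))⁰) : Ideal (𝓞 K)) :=
        ⟨(J : Ideal (𝓞 K)), rfl⟩
      have h4 : nm ((Q * J : (Ideal (𝓞 K))⁰) : Ideal (𝓞 K)) = nS m * nm (J : Ideal (𝓞 K)) := by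
        rw [← hQn]
        exact nm_mul _ _
      have h5 : pv (Q * J) = pv Q * pv J := by
        rw [hpv]
        change ((ψ (ClassGroup.mk0 (Q * J)) : ℂˣ) : ℂ) = ((ψ (ClassGroup.mk0 Q) : ℂˣ) : ℂ) *
          ((ψ (ClassGroup.mk0 J) : ℂˣ) : ℂ)
        rw [map_mul, map_mul, Units.val_mul]
      simp only [Function.comp]
      rw [if_pos h3, h4, h5, mul_div_mul_left _ _ hm.ne', Real.sqrt_mul hm.le]
      have h6 : ((Real.sqrt (nS m) : ℝ) : ℂ) ≠ 0 := by
        have := (Real.sqrt_pos.2 hm).ne'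
        exact_mod_cast this
      push_cast
      by_cases h7 : ((Real.sqrt (nm (J : Ideal (𝓞 K))) : ℝ) : ℂ) = 0
      · rw [h7]; simp
      · field_simp
    · intro J hJ
      rw [if_neg]
      rintro ⟨J', h3⟩
      apply hJ
      have h4 : J' ∈ (Ideal (𝓞 K))⁰ := by
        rw [mem_nonZeroDivisors_iff_ne_zero]
        rintro rfl
        rw [mul_zero] at h3
        exact nonZeroDivisors.ne_zero J.2 h3
      exact ⟨⟨J', h4⟩, Subtype.ext h3.symm⟩
  -- all divisors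
  have h2 : HasSum (fun J : (Ideal (𝓞 K))⁰ => pv J * ((zt k S c y (J : Ideal (𝓞 K)) : ℝ) : ℂ)) 0 := by
    have h3 : ∀ m ∈ S, HasSum (fun J : (Ideal (𝓞 K))⁰ => (c m : ℂ) *
        ∑ Q ∈ Nr k K (idS m), if (Q : Ideal (𝓞 K)) ∣ (J : Ideal (𝓞 K)) then pv J *
        (((2 * Vk k (nm (J : Ideal (𝓞 K)) / (nS m * y))) / Real.sqrt (nm (J : Ideal (𝓞 K))) : ℝ) : ℂ)
          else 0) 0 := by
      intro m _
      have h4 := (hasSum_sum fun Q hQ => h1 m Q hQ).mul_left (c m : ℂ)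
      rw [Finset.sum_const_zero, mul_zero] at h4
      exact h4
    have h5 := hasSum_sum h3
    rw [Finset.sum_const_zero] at h5
    refine hs_congr (fun J => ?_) h5
    unfold zt
    rw [Finset.sum_div, Complex.ofReal_sum, Finset.mul_sum]
    refine Finset.sum_congr rfl fun m _ => ?_
    rw [← Finset.sum_filter, Finset.sum_const, dvn_eq, nsmul_eq_mul]
    push_cast
    ring
  exact (hL S c).unique h2

end Pool.Agent.H6.NV
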